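import Pool.Agent.Y798.OG.Stm
import Pool.Agent.Y674.FC.C

set_option autoImplicit false

/-! OG-D: the Weyl density of `SO(2n)` (the proof follows `Pool.Agent.Y674.FC.C` of helper674). -/

namespace Pool.Agent.Y657.OG

open Finset MeasureTheory UnitAddTorus Polynomial
open Pool.Agent.Y798.FC Pool.Agent.Y798.OG
open Pool.Agent.Y674.FC (ee ee_add ee_zero ee_neg ee_norm ee_smul ee_pow ee_mul_neg ee_neg_pow
  ee_cont pp pp_prop prod_pairs mF_add1 mF_sub1 card_W act_eq int_ee ee_int)

noncomputable section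

/-- the normalisation of the entry of index zero -/
def cw (k : ℕ) : ℂ := if k = 0 then 1 / 2 else 1

/-- the rows of the determinant -/
def CC (y : UnitAddCircle) (k : ℕ) : ℂ := cw k * (ee k y + ee (-(k : ℤ)) y)

theorem CC_cont (k : ℕ) : Continuous fun y => CC y k :=
  continuous_const.mul ((ee_cont _).add (ee_cont _))

theorem CC_units (u : ℤˣ) (y : UnitAddCircle) (k : ℕ) : CC ((u : ℤ) • y) k = CC y k := by
  unfold CC
  rw [ee_smul, ee_smul]
  rcases Int.units_eq_one_or u with rfl | rfl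
  · simp
  · simp only [Units.val_neg, Units.val_one, mul_neg, mul_one, neg_neg]
    ring

/-- the monic polynomials -/
def qq : ℕ → ℂ[X]
  | 0 => 1
  | 1 => X
  | k + 2 => pp (k + 2) - pp k

theorem qq_prop (k : ℕ) : (qq k).natDegree = k ∧ (qq k).Monic := by
  match k with
  | 0 => exact (pp_prop 0).1
  | 1 => exact (pp_prop 0).2
  | k + 2 =>
    obtain ⟨h1, h2⟩ := (pp_prop k).1
    obtain ⟨h3, h4⟩ := (pp_prop (k + 2)).1
    have h7 : (pp k).natDegree < (pp (k + 2)).natDegree := by rw [h3, h1]; omega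
    refine ⟨?_, ?_⟩
    · change (pp (k + 2) - pp k).natDegree = k + 2
      rw [natDegree_sub_eq_left_of_natDegree_lt h7, h3]
    · exact h4.sub_of_left (degree_lt_degree h7)

theorem pp_eq' (z w : ℂ) (hzw : z * w = 1) (k : ℕ) :
    (pp (k + 2)).eval (z + w) - (pp k).eval (z + w) = z ^ (k + 2) + w ^ (k + 2) ∧
    (pp (k + 3)).eval (z + w) - (pp (k + 1)).eval (z + w) = z ^ (k + 3) + w ^ (k + 3) := by
  induction k with
  | zero =>
    refine ⟨?_, ?_⟩
    · simp only [pp, eval_X, eval_sub, eval_mul, eval_one]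
      linear_combination 2 * hzw
    · simp only [pp, eval_X, eval_sub, eval_mul, eval_one]
      linear_combination 3 * (z + w) * hzw
  | succ k ih =>
    obtain ⟨h1, h2⟩ := ih
    refine ⟨h2, ?_⟩
    have e1 : pp (k + 4) = X * pp (k + 3) - pp (k + 2) := rfl
    have e2 : pp (k + 2) = X * pp (k + 1) - pp k := rfl
    change (pp (k + 4)).eval (z + w) - (pp (k + 2)).eval (z + w) = z ^ (k + 4) + w ^ (k + 4)
    have h3 : (pp (k + 4)).eval (z + w) = (z + w) * (pp (k + 3)).eval (z + w) -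
        (pp (k + 2)).eval (z + w) := by
      rw [e1, eval_sub, eval_mul, eval_X]
    have h4 : (pp (k + 2)).eval (z + w) = (z + w) * (pp (k + 1)).eval (z + w) -
        (pp k).eval (z + w) := by
      rw [e2, eval_sub, eval_mul, eval_X]
    linear_combination h3 + (z + w) * h2 - h1 - h4 +
      (z ^ (k + 2) + w ^ (k + 2)) * hzw

theorem CC_eq (y : UnitAddCircle) (k : ℕ) : CC y k = (qq k).eval (ee 1 y + ee (-1) y) := by
  unfold CC cw
  rw [ee_pow, ee_neg_pow]
  match k with
  | 0 =>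
    simp [qq]
    norm_num
  | 1 => simp [qq]
  | k + 2 =>
    rw [if_neg (by omega), one_mul]
    change _ = (pp (k + 2) - pp k).eval _
    rw [eval_sub, (pp_eq' _ _ (ee_mul_neg y) k).1]

/-- the determinant -/
def MD {n : ℕ} (x : UnitAddTorus (Fin n)) : Matrix (Fin n) (Fin n) ℂ :=
  Matrix.of fun i j => CC (x i) j

theorem det_MD {n : ℕ} (x : UnitAddTorus (Fin n)) : (MD x).det =
      ∏ i, ∏ j ∈ Ioi i, ((ee 1 (x j) + ee (-1) (x j)) - (ee 1 (x i) + ee (-1) (x i))) := by
  rw [← Matrix.det_vandermonde (fun i => ee 1 (x i) + ee (-1) (x i)),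
    Matrix.det_eval_matrixOfPolynomials_eq_det_vandermonde _ (fun j : Fin n => qq j)
      (fun j => (qq_prop j).1) (fun j => (qq_prop j).2)]
  congr 1
  ext i j
  simp only [MD, Matrix.of_apply]
  exact CC_eq _ _

theorem dens_eq {n : ℕ} (x : UnitAddTorus (Fin n)) : dens (dRoots n) x = ‖(MD x).det‖ ^ 2 := by
  unfold Pool.Agent.Y798.FC.dens dRoots
  rw [prod_union, prod_image, prod_image]
  · simp_rw [mF_sub1, mF_add1]
    rw [← prod_mul_distrib,
      prod_pairs (fun i j => ‖1 - ee 1 (x i) * ee (-1) (x j)‖ ^ 2 * ‖1 - ee 1 (x i) * ee 1 (x j)‖ ^ 2),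
      det_MD, norm_prod, ← prod_pow]
    refine prod_congr rfl fun i _ => ?_
    rw [norm_prod, ← prod_pow]
    refine prod_congr rfl fun j _ => ?_
    have h1 : (1 - ee 1 (x i) * ee (-1) (x j)) * (1 - ee 1 (x i) * ee 1 (x j)) =
        ee 1 (x i) * -((ee 1 (x j) + ee (-1) (x j)) - (ee 1 (x i) + ee (-1) (x i))) := by
      linear_combination (ee 1 (x i)) ^ 2 * ee_mul_neg (x j) - ee_mul_neg (x i)
    rw [← mul_pow, ← norm_mul, h1, norm_mul, norm_neg, ee_norm, one_mul]
  · rintro ⟨i, j⟩ hp ⟨i', j'⟩ hp' h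
    simp only [coe_filter, mem_univ, true_and, Set.mem_setOf_eq] at hp hp'
    have h1 := congrFun h i
    have h2 := congrFun h j
    simp only [Pi.add_apply, Pi.single_apply] at h1 h2
    rw [Prod.mk.injEq]
    split_ifs at h1 h2 <;> omega
  · rintro ⟨i, j⟩ hp ⟨i', j'⟩ hp' h
    simp only [coe_filter, mem_univ, true_and, Set.mem_setOf_eq] at hp hp'
    have h1 := congrFun h i
    have h2 := congrFun h j
    simp only [Pi.sub_apply, Pi.single_apply] at h1 h2
    rw [Prod.mk.injEq]
    split_ifs at h1 h2 <;> omega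
  · rw [disjoint_left]
    intro a ha hb
    simp only [mem_image, mem_univ, true_and, mem_filter, Prod.exists] at ha hb
    obtain ⟨i', j', hij, h⟩ := hb
    obtain ⟨i, j, hij2, rfl⟩ := ha
    have h1 := congrFun h j
    simp only [Pi.add_apply, Pi.sub_apply, Pi.single_apply] at h1
    split_ifs at h1 <;> omega

theorem inv_W {n : ℕ} (w : Auts (Fin n)) (hw : w ∈ sympW n) (x : UnitAddTorus (Fin n)) :
    dens (dRoots n) (act w x) = dens (dRoots n) x := by
  obtain ⟨σ, s, h⟩ := hw
  rw [dens_eq, dens_eq]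
  have h1 : MD (act w x) = (MD x).submatrix (σ⁻¹ : Equiv.Perm (Fin n)) id := by
    ext i j
    simp only [MD, Matrix.of_apply, Matrix.submatrix_apply, id_eq]
    rw [act_eq h, CC_units]
  have h2 : ∀ u : ℤˣ, ‖((u : ℤ) : ℂ)‖ = 1 := by
    intro u
    rcases Int.units_eq_one_or u with rfl | rfl <;> simp
  rw [h1, Matrix.det_permute, norm_mul, h2, one_mul]

theorem int_CC (a b : ℕ) :
    ∫ y, CC y a * starRingEnd ℂ (CC y b) ∂(AddCircle.haarAddCircle : Measure UnitAddCircle) =
      if a = b then (if a = 0 then 1 else 2) else 0 := by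
  have h1 : ∀ y, CC y a * starRingEnd ℂ (CC y b) =
      (cw a * cw b) * (((ee ((a : ℤ) - b) y + ee ((a : ℤ) + b) y) + ee (-((a : ℤ) + b)) y) +
        ee ((b : ℤ) - a) y) := by
    intro y
    have hb : starRingEnd ℂ (cw b) = cw b := by
      unfold cw
      split_ifs
      · rw [map_div₀, map_one, Complex.conj_ofNat]
      · exact map_one _
    unfold CC
    rw [map_mul, hb, map_add, ← ee_neg, ← ee_neg, neg_neg]
    have e1 : ee ((a : ℤ) - b) y = ee a y * ee (-(b : ℤ)) y := by rw [← ee_add]; rfl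
    have e2 : ee ((a : ℤ) + b) y = ee a y * ee b y := ee_add _ _ _
    have e3 : ee (-((a : ℤ) + b)) y = ee (-(a : ℤ)) y * ee (-(b : ℤ)) y := by
      rw [← ee_add, neg_add]
    have e4 : ee ((b : ℤ) - a) y = ee (-(a : ℤ)) y * ee b y := by
      rw [← ee_add]
      congr 1
      ring
    rw [e1, e2, e3, e4]
    ring
  simp_rw [h1]
  rw [integral_const_mul]
  have h2 : ∫ y, (((ee ((a : ℤ) - b) y + ee ((a : ℤ) + b) y) + ee (-((a : ℤ) + b)) y) +
        ee ((b : ℤ) - a) y) ∂(AddCircle.haarAddCircle : Measure UnitAddCircle) =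
      (((if (a : ℤ) - b = 0 then 1 else 0) + (if (a : ℤ) + b = 0 then 1 else 0)) +
        (if -((a : ℤ) + b) = 0 then 1 else 0)) + (if (b : ℤ) - a = 0 then 1 else 0) := by
    refine (integral_add (((ee_int _).add (ee_int _)).add (ee_int _)) (ee_int _)).trans ?_
    rw [integral_add' ((ee_int _).add (ee_int _)) (ee_int _), integral_add' (ee_int _) (ee_int _),
      int_ee, int_ee, int_ee, int_ee]
  rw [h2]
  unfold cw
  by_cases hab : a = b
  · subst hab
    by_cases ha : a = 0
    · subst ha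
      norm_num
    · rw [if_neg ha, if_pos (by omega), if_neg (by omega), if_neg (by omega), if_pos rfl,
        if_neg ha]
      norm_num
  · have q1 : ¬ ((a : ℤ) - b = 0) := by omega
    have q2 : ¬ ((a : ℤ) + b = 0) := by omega
    have q3 : ¬ (-((a : ℤ) + b) = 0) := by omega
    have q4 : ¬ ((b : ℤ) - a = 0) := by omega
    rw [if_neg q1, if_neg q2, if_neg q3, if_neg q4, if_neg hab]
    simp

theorem det_sq {n : ℕ} (x : UnitAddTorus (Fin n)) : ((‖(MD x).det‖ ^ 2 : ℝ) : ℂ) =
    ∑ τ : Equiv.Perm (Fin n), ∑ τ' : Equiv.Perm (Fin n),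
      (((Equiv.Perm.sign τ : ℤ) : ℂ) * ((Equiv.Perm.sign τ' : ℤ) : ℂ)) *
        ∏ i, (CC (x i) (τ i) * starRingEnd ℂ (CC (x i) (τ' i))) := by
  have h1 : (MD x).det = ∑ τ : Equiv.Perm (Fin n), ((Equiv.Perm.sign τ : ℤ) : ℂ) *
      ∏ i, CC (x i) (τ i) := by
    rw [← Matrix.det_transpose, Matrix.det_apply']
    rfl
  have h2 : ((‖(MD x).det‖ ^ 2 : ℝ) : ℂ) = (MD x).det * starRingEnd ℂ (MD x).det := by
    rw [Complex.mul_conj, Complex.normSq_eq_norm_sq]
  rw [h2, h1, map_sum, sum_mul_sum]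
  refine sum_congr rfl fun τ _ => sum_congr rfl fun τ' _ => ?_
  rw [map_mul, map_prod, prod_mul_distrib, map_intCast]
  ring

theorem mass_W (m : ℕ) : 2 * ∫ x, dens (dRoots (m + 1)) x ∂(vol (Fin (m + 1))) =
    Nat.card (sympW (m + 1)) := by
  have h0 : ((∫ x, dens (dRoots (m + 1)) x ∂(vol (Fin (m + 1))) : ℝ) : ℂ) =
      ((((m + 1).factorial * 2 ^ m : ℕ) : ℝ) : ℂ) := by
    rw [← integral_complex_ofReal]
    simp_rw [dens_eq]
    have h1 : ∀ x : UnitAddTorus (Fin (m + 1)), ((‖(MD x).det‖ ^ 2 : ℝ) : ℂ) = _ :=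
      fun x => det_sq x
    simp_rw [h1]
    unfold vol
    have hc : ∀ τ τ' : Equiv.Perm (Fin (m + 1)), Integrable (fun x : UnitAddTorus (Fin (m + 1)) =>
        (((Equiv.Perm.sign τ : ℤ) : ℂ) * ((Equiv.Perm.sign τ' : ℤ) : ℂ)) *
        ∏ i, (CC (x i) (τ i) * starRingEnd ℂ (CC (x i) (τ' i))))
        (Measure.pi fun _ => (AddCircle.haarAddCircle : Measure UnitAddCircle)) := by
      intro τ τ'
      refine Continuous.integrable_of_hasCompactSupport ?_ (HasCompactSupport.of_compactSpace _)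
      refine continuous_const.mul (continuous_finset_prod _ fun i _ => ?_)
      exact ((CC_cont _).comp (continuous_apply i)).mul
        (Complex.continuous_conj.comp ((CC_cont _).comp (continuous_apply i)))
    rw [integral_finsetSum _ fun τ _ => integrable_finsetSum _ fun τ' _ => hc τ τ']
    simp_rw [integral_finsetSum _ fun τ' _ => hc _ τ']
    have h2 : ∀ τ τ' : Equiv.Perm (Fin (m + 1)), ∫ x : UnitAddTorus (Fin (m + 1)),
        (((Equiv.Perm.sign τ : ℤ) : ℂ) * ((Equiv.Perm.sign τ' : ℤ) : ℂ)) *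
        ∏ i, (CC (x i) (τ i) * starRingEnd ℂ (CC (x i) (τ' i)))
        ∂(Measure.pi fun _ => (AddCircle.haarAddCircle : Measure UnitAddCircle)) =
        if τ = τ' then 2 ^ m else 0 := by
      intro τ τ'
      rw [integral_const_mul, integral_fintype_prod_eq_prod
        (fun i y => CC y (τ i) * starRingEnd ℂ (CC y (τ' i)))]
      simp_rw [int_CC]
      split_ifs with h
      · subst h
        simp only [if_true]
        have h5 : ∏ i, (if ((τ i : Fin (m + 1)) : ℕ) = 0 then (1 : ℂ) else 2) = 2 ^ m := by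
          rw [Equiv.prod_comp τ (fun i : Fin (m + 1) => if (i : ℕ) = 0 then (1 : ℂ) else 2),
            Fin.prod_univ_succ]
          simp
        rw [h5]
        rcases Int.units_eq_one_or (Equiv.Perm.sign τ) with h3 | h3 <;> rw [h3] <;> simp
      · obtain ⟨i, hi⟩ : ∃ i, τ i ≠ τ' i := by
          by_contra hcon
          push Not at hcon
          exact h (Equiv.ext hcon)
        rw [prod_eq_zero (mem_univ i), mul_zero]
        rw [if_neg]
        intro hc
        exact hi (Fin.ext hc)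
    simp_rw [h2]
    simp only [sum_ite_eq, mem_univ, if_true, sum_const, card_univ, Fintype.card_perm,
      Fintype.card_fin, nsmul_eq_mul]
    push_cast
    rfl
  have h6 : ∫ x, dens (dRoots (m + 1)) x ∂(vol (Fin (m + 1))) =
      (((m + 1).factorial * 2 ^ m : ℕ) : ℝ) := by exact_mod_cast h0
  rw [h6, card_W]
  push_cast
  ring

theorem t : StmD := by
  intro m
  refine ⟨?_, inv_W, mass_W m⟩
  intro α hα
  unfold dRoots at hα
  simp only [mem_image, mem_univ, true_and, mem_filter, Prod.exists, mem_union] at hα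
  rintro rfl
  rcases hα with ⟨i, j, hij, h⟩ | ⟨i, j, hij, h⟩
  · have h1 := congrFun h i
    simp only [Pi.sub_apply, Pi.single_apply, Pi.zero_apply] at h1
    split_ifs at h1 <;> omega
  · have h1 := congrFun h i
    simp only [Pi.add_apply, Pi.single_apply, Pi.zero_apply] at h1
    split_ifs at h1 <;> omega

end

end Pool.Agent.Y657.OG
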